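import Pool.Agent.Helper15.EP.St

set_option autoImplicit false

/-!
Project EP, module UCT: the number of solutions of a linear congruence.
-/

open Polynomial Pool.Agent.Helper15.FC Pool.Agent.Helper15.EP

namespace Pool.Agent.Helper41.EP

theorem hUCT : StUCT := by
  intro F _ _ m A t u hm ht hu S hS
  classical
  have hq : (0 : ℝ) ≤ qr F := by unfold qr; positivity
  have hq1 : (1 : ℝ) ≤ qr F := by
    unfold qr
    exact_mod_cast Fintype.card_pos
  rcases S.eq_empty_or_nonempty with rfl | ⟨x0, hx0⟩
  · simp only [Finset.card_empty, Nat.cast_zero]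
    positivity
  have hm0 : m ≠ 0 := hm.ne_zero
  obtain ⟨m', hm'⟩ : EuclideanDomain.gcd A m ∣ m := EuclideanDomain.gcd_dvd_right A m
  obtain ⟨A', hA'⟩ : EuclideanDomain.gcd A m ∣ A := EuclideanDomain.gcd_dvd_left A m
  have hbez := EuclideanDomain.gcd_eq_gcd_ab A m
  generalize EuclideanDomain.gcd A m = g at hm' hA' hbez
  generalize EuclideanDomain.gcdA A m = a at hbez
  generalize EuclideanDomain.gcdB A m = b at hbez
  have hg0 : g ≠ 0 := by
    rintro rfl
    rw [zero_mul] at hm'
    exact hm0 hm'
  have hm'0 : m' ≠ 0 := by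
    rintro rfl
    rw [mul_zero] at hm'
    exact hm0 hm'
  have hone : A' * a + m' * b = 1 := by
    have h1 : g * (A' * a + m' * b) = g * 1 := by
      rw [mul_one]
      calc g * (A' * a + m' * b) = (g * A') * a + (g * m') * b := by ring
        _ = A * a + m * b := by rw [← hA', ← hm']
        _ = g := hbez.symm
    exact mul_left_cancel₀ hg0 h1
  -- degree of g
  have hgt : g ∣ t := by
    have h1 : g ∣ A * x0 - u * t := (Dvd.intro _ hm'.symm).trans (hS x0 hx0).2
    have h2 : g ∣ A * x0 := (Dvd.intro _ hA'.symm).mul_right x0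
    have h3 : g ∣ u * t := by
      have := dvd_sub h2 h1
      rwa [sub_sub_cancel] at this
    have h4 : IsCoprime g u := (hu.symm).of_isCoprime_of_dvd_left (Dvd.intro _ hm'.symm)
    exact h4.dvd_of_dvd_mul_left h3
  have hdeg : g.natDegree ≤ t.natDegree := natDegree_le_of_dvd hgt ht
  have hmd : m.natDegree = g.natDegree + m'.natDegree := by
    rw [hm', natDegree_mul hg0 hm'0]
  -- the quotients
  have hz : ∀ x ∈ S, ∃ w : F[X], x - x0 = m' * w ∧ w ∈ Lw F g.natDegree := by
    intro x hx
    have h1 : m ∣ A * (x - x0) := by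
      have := dvd_sub (hS x hx).2 (hS x0 hx0).2
      have e : A * x - u * t - (A * x0 - u * t) = A * (x - x0) := by ring
      rwa [e] at this
    have h2 : m' ∣ A' * (x - x0) := by
      rw [hm', hA', mul_assoc] at h1
      exact (mul_dvd_mul_iff_left hg0).1 h1
    have h3 : m' ∣ x - x0 := by
      have e : x - x0 = a * (A' * (x - x0)) + m' * (b * (x - x0)) := by
        calc x - x0 = (A' * a + m' * b) * (x - x0) := by rw [hone, one_mul]
          _ = _ := by ring
      rw [e]
      exact dvd_add (h2.mul_left a) (Dvd.intro _ rfl)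
    obtain ⟨w, hw⟩ := h3
    refine ⟨w, hw, ?_⟩
    rw [mem_Lw]
    by_cases hw0 : w = 0
    · rw [hw0, degree_zero]
      exact WithBot.bot_lt_coe _
    have h4 : (x - x0).degree < m.natDegree := by
      refine lt_of_le_of_lt (degree_sub_le _ _) (max_lt ?_ ?_)
      · exact mem_Lw.1 (hS x hx).1
      · exact mem_Lw.1 (hS x0 hx0).1
    rw [hw, degree_mul, degree_eq_natDegree hm'0, degree_eq_natDegree hw0, hmd] at h4
    rw [degree_eq_natDegree hw0]
    norm_cast at h4 ⊢
    omega
  choose! w hw1 hw2 using hz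
  have hcard : S.card ≤ (Lw F g.natDegree).card := by
    refine Finset.card_le_card_of_injOn w (fun x hx => hw2 x hx) ?_
    intro x hx y hy hxy
    have h1 := hw1 x hx
    have h2 := hw1 y hy
    rw [hxy, ← h2] at h1
    exact sub_left_injective h1
  rw [card_Lw] at hcard
  calc (S.card : ℝ) ≤ ((Fintype.card F ^ g.natDegree : ℕ) : ℝ) := by exact_mod_cast hcard
    _ = qr F ^ g.natDegree := by unfold qr; push_cast; rfl
    _ ≤ qr F ^ t.natDegree := pow_le_pow_right₀ hq1 hdeg

end Pool.Agent.Helper41.EP
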