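import Pool.Agent.Helper68.EP.St6

set_option autoImplicit false

/-!
# Project EP (MP_cb927e_an), module FA: the strong type estimate for bounded functions
-/

open MeasureTheory Set Filter Topology
open scoped ENNReal RealInnerProductSpace

namespace Pool.Agent.Helper41.EP

open Pool.Agent.Helper68.EP Pool.Agent.Helper20.RG
open Pool.Agent.Helper68.LM (Pl BB Bd Av HL ft fm DQ)
open Pool.Agent.Helper20.RL (RQ Rich BM Fml)

/-- the truncated values are nonnegative -/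
theorem tt_nonneg (P : Par) (Δ : Dat) (ct : ℕ → ℕ → Pl) (e₂ : ℝ) (u j : ℕ) (k : ℤ) (E : Set Pl)
    (x : Pl) : 0 ≤ tt P Δ ct e₂ u j k E x := by
  unfold tt
  split_ifs with h
  · refine le_trans ?_ h
    positivity
  · exact le_rfl

/-- monotone convergence for double sums -/
theorem tsum_iSup_le {w : ℤ → ℝ≥0∞} {v : ℤ → ℤ → ℕ → ℝ≥0∞} (hv : ∀ l k, Monotone (v l k))
    {R : ℝ≥0∞} (h : ∀ U, ∑' l, w l * ∑' k, v l k U ≤ R) :
    ∑' l, w l * ∑' k, (⨆ U, v l k U) ≤ R := by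
  have e1 : ∀ l, w l * ∑' k, (⨆ U, v l k U) = ∑' k, ⨆ U, w l * v l k U := by
    intro l
    rw [← ENNReal.tsum_mul_left]
    refine tsum_congr fun k => ?_
    rw [ENNReal.mul_iSup]
  have e2 : ∑' l, w l * ∑' k, (⨆ U, v l k U) = ∑' x : ℤ × ℤ, ⨆ U, w x.1 * v x.1 x.2 U := by
    rw [ENNReal.tsum_prod']
    exact tsum_congr e1
  rw [e2, ENNReal.tsum_eq_iSup_sum]
  refine iSup_le fun s => ?_
  rw [ENNReal.finsetSum_iSup_of_monotone]
  · refine iSup_le fun U => ?_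
    refine le_trans ?_ (h U)
    have e3 : ∑' l, w l * ∑' k, v l k U = ∑' x : ℤ × ℤ, w x.1 * v x.1 x.2 U := by
      rw [ENNReal.tsum_prod']
      exact tsum_congr fun l => (ENNReal.tsum_mul_left).symm
    rw [e3]
    exact ENNReal.sum_le_tsum s
  · intro x U U' hU
    exact mul_le_mul_right (hv x.1 x.2 hU) _

/-- the layer cake bound for a supremum -/
theorem lay {a : ℤ → Pl → ℝ} {K p : ℝ} (hK : 1 ≤ K) (hp : 0 < p) :
    ∫⁻ x, (⨆ k : ℤ, ENNReal.ofReal (a k x)) ^ p ≤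
      ENNReal.ofReal ((2 * K) ^ p) * ∑' l : ℤ, ENNReal.ofReal ((2 : ℝ) ^ (p * l)) *
        volume {x | ∃ k : ℤ, K * (2 : ℝ) ^ l < a k x} := by
  have hK0 : 0 < K := by linarith
  set S : ℤ → Set Pl := fun l => {x | ∃ k : ℤ, K * (2 : ℝ) ^ l < a k x} with hS
  set T : ℤ → Set Pl := fun l => toMeasurable volume (S l) with hT
  have h2p : ∀ l : ℤ, (2 : ℝ) ^ (p * (l : ℝ)) = ((2 : ℝ) ^ l) ^ p := by
    intro l
    rw [mul_comm, Real.rpow_mul (by norm_num), Real.rpow_intCast]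
  have key : ∀ x, (⨆ k : ℤ, ENNReal.ofReal (a k x)) ^ p ≤
      ∑' l : ℤ, (T l).indicator
        (fun _ => ENNReal.ofReal ((2 * K) ^ p) * ENNReal.ofReal ((2 : ℝ) ^ (p * l))) x := by
    intro x
    rw [← ENNReal.le_rpow_inv_iff hp]
    refine iSup_le fun k => ?_
    rw [ENNReal.le_rpow_inv_iff hp]
    rcases le_or_gt (a k x) 0 with h0 | h0
    · rw [ENNReal.ofReal_of_nonpos h0, ENNReal.zero_rpow_of_pos hp]
      exact zero_le
    · obtain ⟨l, hl1, hl2⟩ := exists_mem_Ioc_zpow (x := a k x / K) (y := (2 : ℝ))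
        (by positivity) (by norm_num)
      rw [lt_div_iff₀ hK0] at hl1
      rw [div_le_iff₀ hK0] at hl2
      have hx : x ∈ T l := subset_toMeasurable _ _ ⟨k, by rw [mul_comm]; exact hl1⟩
      refine le_trans ?_ (ENNReal.le_tsum l)
      rw [indicator_of_mem hx, ENNReal.ofReal_rpow_of_pos h0,
        ← ENNReal.ofReal_mul (by positivity)]
      refine ENNReal.ofReal_le_ofReal ?_
      rw [h2p, ← Real.mul_rpow (by positivity) (by positivity)]
      refine Real.rpow_le_rpow h0.le ?_ hp.le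
      rw [zpow_add_one₀ (by norm_num)] at hl2
      linarith
  calc ∫⁻ x, (⨆ k : ℤ, ENNReal.ofReal (a k x)) ^ p
      ≤ ∫⁻ x, ∑' l : ℤ, (T l).indicator
        (fun _ => ENNReal.ofReal ((2 * K) ^ p) * ENNReal.ofReal ((2 : ℝ) ^ (p * l))) x :=
        lintegral_mono key
    _ = ∑' l : ℤ, ∫⁻ x, (T l).indicator
        (fun _ => ENNReal.ofReal ((2 * K) ^ p) * ENNReal.ofReal ((2 : ℝ) ^ (p * l))) x := by
        refine lintegral_tsum fun l => ?_
        exact (measurable_const.indicator (measurableSet_toMeasurable _ _)).aemeasurable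
    _ = ENNReal.ofReal ((2 * K) ^ p) * ∑' l : ℤ, ENNReal.ofReal ((2 : ℝ) ^ (p * l)) *
        volume (S l) := by
        rw [← ENNReal.tsum_mul_left]
        refine tsum_congr fun l => ?_
        rw [lintegral_indicator_const (measurableSet_toMeasurable _ _),
          measure_toMeasurable, mul_assoc]

/-- module FA -/
theorem hFA (_hYB : Pool.Agent.Helper20.RG.StYB) (hXHI : StXHI) (hLO : StLO) : StFA := by
  intro φ τ A p c hG hA hGap hp1 hp2 hp3
  obtain ⟨P, hPp, hSy, hP⟩ := hLO φ τ A p c hG hA hGap hp1 hp2 hp3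
  obtain ⟨C₁, u₀, hC₁, -, hX⟩ := hXHI P (1 / 200) (by norm_num) (by norm_num)
  obtain ⟨U₀, C₂, K, hU, hC₂, hK, hL⟩ := hP u₀
  have hp0 : 0 < p := by linarith
  refine ⟨(2 * K) ^ p * (C₂ + C₁), by positivity, ?_⟩
  intro g hg hg0
  have hL' := hL g hg hg0
  refine le_trans (lay hK hp0) ?_
  rw [ENNReal.ofReal_mul (by positivity), mul_assoc]
  refine mul_le_mul_right ?_ _
  rw [ENNReal.ofReal_add (by linarith) (by linarith), add_mul]
  set a : ℤ → Pl → ℝ := fun k x => Av (arc c φ) ((2 : ℝ) ^ k) g x with ha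
  set F : ℤ → ℤ → ℕ → Pl → ℝ := fun l k U₁ x => ∑ u ∈ Finset.Icc U₀ U₁,
    ∑ j ∈ Finset.range (2 ^ u), tt P (dat τ) (ce c φ) (P.g / 8) u j k (Gf g (l + (u : ℤ))) x
    with hF
  have hFm : ∀ l k, Monotone fun U₁ => {x | 1 / 200 ≤ F l k U₁ x} := by
    intro l k U U' hUU x hx
    have hx' : 1 / 200 ≤ F l k U x := hx
    refine le_trans hx' ?_
    refine Finset.sum_le_sum_of_subset_of_nonneg (Finset.Icc_subset_Icc_right hUU) ?_
    intro u _ _
    exact Finset.sum_nonneg fun j _ => tt_nonneg _ _ _ _ _ _ _ _ _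
  have hsub : ∀ l : ℤ, {x | ∃ k : ℤ, K * (2 : ℝ) ^ l < a k x} ⊆
      {x | ∃ k : ℤ, K * (2 : ℝ) ^ l < a k x ∧ ∀ U₁ : ℕ, F l k U₁ x < 1 / 200} ∪
        ⋃ k : ℤ, ⋃ U₁ : ℕ, {x | 1 / 200 ≤ F l k U₁ x} := by
    rintro l x ⟨k, hk⟩
    by_cases h : ∀ U₁ : ℕ, F l k U₁ x < 1 / 200
    · exact Or.inl ⟨k, hk, h⟩
    · push Not at h
      obtain ⟨U₁, h⟩ := h
      exact Or.inr (mem_iUnion.2 ⟨k, mem_iUnion.2 ⟨U₁, h⟩⟩)
  have hvol : ∀ l : ℤ, volume {x | ∃ k : ℤ, K * (2 : ℝ) ^ l < a k x} ≤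
      volume {x | ∃ k : ℤ, K * (2 : ℝ) ^ l < a k x ∧ ∀ U₁ : ℕ, F l k U₁ x < 1 / 200} +
        ∑' k : ℤ, ⨆ U₁ : ℕ, volume {x | 1 / 200 ≤ F l k U₁ x} := by
    intro l
    refine le_trans (measure_mono (hsub l)) (le_trans (measure_union_le _ _) ?_)
    refine add_le_add le_rfl (le_trans (measure_iUnion_le _) ?_)
    refine ENNReal.tsum_le_tsum fun k => ?_
    rw [(hFm l k).measure_iUnion]
  calc ∑' l : ℤ, ENNReal.ofReal ((2 : ℝ) ^ (p * l)) *
        volume {x | ∃ k : ℤ, K * (2 : ℝ) ^ l < a k x}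
      ≤ ∑' l : ℤ, (ENNReal.ofReal ((2 : ℝ) ^ (p * l)) *
          volume {x | ∃ k : ℤ, K * (2 : ℝ) ^ l < a k x ∧ ∀ U₁ : ℕ, F l k U₁ x < 1 / 200} +
          ENNReal.ofReal ((2 : ℝ) ^ (p * l)) *
          ∑' k : ℤ, ⨆ U₁ : ℕ, volume {x | 1 / 200 ≤ F l k U₁ x}) := by
        refine ENNReal.tsum_le_tsum fun l => ?_
        rw [← mul_add]
        exact mul_le_mul_right (hvol l) _
    _ = ∑' l : ℤ, ENNReal.ofReal ((2 : ℝ) ^ (p * l)) *
          volume {x | ∃ k : ℤ, K * (2 : ℝ) ^ l < a k x ∧ ∀ U₁ : ℕ, F l k U₁ x < 1 / 200} +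
        ∑' l : ℤ, ENNReal.ofReal ((2 : ℝ) ^ (p * l)) *
          ∑' k : ℤ, ⨆ U₁ : ℕ, volume {x | 1 / 200 ≤ F l k U₁ x} := ENNReal.tsum_add
    _ ≤ _ := by
        refine add_le_add hL' ?_
        refine tsum_iSup_le (fun l k U U' hUU => measure_mono (hFm l k hUU)) ?_
        intro U₁
        have := hX (dat τ) (ce c φ) U₀ U₁ g hSy hU hg
        rw [hPp] at this
        exact this

end Pool.Agent.Helper41.EP
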